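import Pool.Agent.H631.PC.Card
import Pool.Agent.H631.PC.Finite

/-!
# Arbitrarily large gaps between `add(I_f)` and `cofin⁻(I_f)`

For every set `R` there is a ccc notion of forcing `P` which forces the combinatorial sentence
`PhiFor K C T` (`PhiHolds P K C T` is its literal translation into the forcing language), where
`K` has size `ℵ₁` and `R` embeds into `T 0`. This sentence implies, for all functions `f`, that
`add(I_f) = ℵ₁` and that `cofin⁻(I_f)` is at least `ℵ_ω` and greater than the size of `T 0`.

The notion of forcing is a finite support iteration of Cohen reals and of slaloms `S`. For a given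
long sequence of functions `x k` the generic slalom `S` captures `x k` only on the set of all `n`
with `d n ≠ e`, where `d` is a Cohen real which depends on `k` and on the numbers `e` chosen for
smaller indices, and `e` is an arbitrary number (given by a name) which depends on `d` and `k`.
Whenever two slaloms use the same Cohen reals they use, with at most one exception, the same
numbers. Therefore finitely many of the Cohen reals can be continued with the values `e`, and the
slaloms need not capture anything there; this is used to show that the iteration is ccc and that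
the Cohen reals of a family of size `ℵ₁` remain a nonmeager set. On the other hand, if ideals
`F k` do not contain `I_f` then each of them misses a set which is given by `x k` on the
set of all `n` with `d n ≠ e` for a suitable `e`, and so there is one set in `I_f` which is missed
by all of them.
-/

set_option autoImplicit false

namespace Pool.Agent.Results.MP_3a91e3_lc.LargeGap

open Cardinal Pool.Agent.H631.PC Pool.Agent.R165.Cof

/-- (A) For every set `R` there are infinite sets `T n` (`n : ℕ`) such that `R` embeds into `T 0`,
a linear order `K` all of whose initial segments are countable, a set `C`, and a ccc notion of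
forcing `P` all of whose conditions force the sentence `PhiFor K C T`. (B) Whenever all initial
segments of the linear order `K` are countable, all `T n` are infinite and `PhiFor K C T` holds,
then for all `f` and `g` as in the problem `add(I_f) = ℵ_1`, `ℵ_(1 + ω) ≤ cofin⁻(I_f)`,
`|T 0| < cofin⁻(I_f)`, and `cofin⁻(I_f)` is an ordinal. -/
theorem result :
    (∀ R : Type, ∃ (T : ℕ → Type) (K C P : Type) (_ : LinearOrder K) (_ : Preorder P),
      (∀ n, Infinite (T n)) ∧ Nonempty (R ↪ T 0) ∧ (∀ k : K, (Set.Iio k).Countable) ∧
      Nonempty P ∧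
      (∀ A : Set P, (∀ p ∈ A, ∀ q ∈ A, p ≠ q → ¬ ∃ r, r ≤ p ∧ r ≤ q) → A.Countable) ∧
      ∀ p : P, p ∈ PhiHolds P K C T) ∧
    (∀ (K C : Type) (T : ℕ → Type) (_ : LinearOrder K), (∀ k : K, (Set.Iio k).Countable) →
      (∀ n, Infinite (T n)) → PhiFor K C T →
      ∀ f g : ℕ → ℕ, StrictMono f → StrictMono g → (∀ n, 2 < g n ∧ g n < f n) →
        (∀ n : ℕ, (g n : ℝ) / (f n : ℝ) ≤ 1 / ((n : ℝ) + 1)) →
          addNum (SlalIdeal f) = ℵ_ 1 ∧
          ((ℵ_ (1 + Ordinal.omega0)).ord : WithTop Ordinal.{0}) ≤ cofinMinus (SlalIdeal f) ∧
          ((#(T 0)).ord : WithTop Ordinal.{0}) < cofinMinus (SlalIdeal f) ∧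
          cofinMinus (SlalIdeal f) < ⊤) := by
  refine ⟨fun R => ?_, ?_⟩
  · obtain ⟨T, h0, hs⟩ : ∃ T : ℕ → Type, T 0 = (R ⊕ ℕ) ∧ ∀ n, T (n + 1) = Set (T n) :=
      ⟨fun n => Nat.rec (R ⊕ ℕ) (fun _ X => Set X) n, rfl, fun n => rfl⟩
    have hlt : ∀ n, #(T n) < #(T (n + 1)) := by
      intro n
      rw [hs, Cardinal.mk_set]
      exact Cardinal.cantor _
    have hi0 : Infinite (T 0) := by
      rw [h0]
      infer_instance
    have hi : ∀ n, Infinite (T n) := by
      intro n
      rw [← Cardinal.aleph0_le_mk_iff]
      induction n with
      | zero => exact Cardinal.aleph0_le_mk _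
      | succ n ih => exact ih.trans (hlt n).le
    obtain ⟨K, C, P, iK, iP, hK, hP, hccc, h⟩ := exists_forcing_seq T hlt
    refine ⟨T, K, C, P, iK, iP, hi, ?_, hK, hP, hccc, h⟩
    rw [h0]
    exact ⟨⟨Sum.inl, Sum.inl_injective⟩⟩
  · intro K C T _ hK hT hPhi f g hf _ hfg _
    have hf0 : ∀ n, 0 < f n := fun n => by
      have := hfg n
      omega
    obtain ⟨h1, h2, h3⟩ := gap hf hf0 hK hT hPhi
    exact ⟨h1, h2, h3, cofinMinus_slal hf hf0⟩

end Pool.Agent.Results.MP_3a91e3_lc.LargeGap
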